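import Pool.Agent.Results.MP_6957f6_co.WeakClassPFails

/-!
# MP_6957f6_co, Q1: a palindromic fixed point of a primitive morphism whose language is not the
language of a fixed point of a class P morphism

Let `φ` be the primitive morphism on five letters `0 ↦ 0123401234`, `1 ↦ 4321001234`,
`2 ↦ 0123443210432104321043210`, `3 ↦ 012344321043210`, `4 ↦ 43210012340123401234` and `u` its
fixed point that starts with `0`. Then `u` is the image of the binary word `t` under `0 ↦ 01234`,
`1 ↦ 43210`, where `t` is the fixed point of `0 ↦ 0010011110111000`, `1 ↦ 1000011011111000`.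
This binary morphism is conjugate to `0 ↦ 0000010011110111`, `1 ↦ 0001000011011111`, which
commutes with the reversal combined with the exchange of `0` and `1`; so `t` has long factors that
are symmetric under this operation, and they give long palindromes of `u`. All symmetric
windows of `t` of radius at least three have their centre at `13` modulo `16` and come from
symmetric windows one level below. It follows that there are nested positions of `u` that lie in no
long palindrome, and, around each of them, intervals of length about `16 ^ m` that meet no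
palindrome much longer than that. On the other hand a fixed point of a morphism in class P is
covered by long palindromes, except for the images of the letters whose iterates stay short.
The general lemmas on covering by palindromes are those of `WeakClassPFails`.
-/

set_option autoImplicit false

namespace Pool.Agent.Results.MP_6957f6_co.ClassPFails

open Pool.Agent.Results.MP_6957f6_co.WeakClassPFails

/-! ### The binary word `t` -/

/-- The letters of the images `0 ↦ 0010011110111000`, `1 ↦ 1000011011111000`. -/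
def T (b : Bool) (j : ℕ) : Bool :=
  match b with
  | false => [false, false, true, false, false, true, true, true, true, false, true, true, true,
      false, false, false].getD j false
  | true => [true, false, false, false, false, true, true, false, true, true, true, true, true,
      false, false, false].getD j false

/-- The fixed point of the morphism `T` that starts with `0`. -/
def t (n : ℕ) : Bool := if n = 0 then false else T (t (n / 16)) (n % 16)
termination_by n
decreasing_by omega

lemma t_zero : t 0 = false := by rw [t]; simp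

lemma t_eq (m j : ℕ) (hj : j < 16) : t (16 * m + j) = T (t m) j := by
  by_cases h : 16 * m + j = 0
  · obtain ⟨rfl, rfl⟩ : m = 0 ∧ j = 0 := by omega
    rw [t_zero]; rfl
  · rw [t]
    rw [if_neg h, show (16 * m + j) / 16 = m by omega, show (16 * m + j) % 16 = j by omega]

lemma t_first (m : ℕ) : t (16 * m) = t m := by
  have := t_eq m 0 (by omega)
  rw [add_zero] at this
  rw [this]
  generalize t m = c
  revert c; decide

lemma t_nine (m : ℕ) : t (16 * m + 9) = t m := by
  rw [t_eq m 9 (by omega)]
  generalize t m = c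
  revert c; decide

/-- `t` is symmetric (up to exchange of the letters) in the window of radius `r` around `c`. -/
def Sy (c r : ℕ) : Prop := r ≤ c ∧ ∀ i < r, t (c + i) = !t (c - 1 - i)

/-- A window of radius at least three has its centre at `13` modulo `16`. -/
lemma radius_le (c : ℕ) (hc : c % 16 ≠ 13) (h3 : 3 ≤ c) (h0 : t c = !t (c - 1))
    (h1 : t (c + 1) = !t (c - 2)) (h2 : t (c + 2) = !t (c - 3)) : False := by
  obtain ⟨q, s, hs, rfl⟩ : ∃ q s, s < 16 ∧ c = 16 * q + s :=
    ⟨c / 16, c % 16, Nat.mod_lt _ (by omega), by omega⟩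
  have hs13 : s ≠ 13 := by omega
  rcases Nat.lt_or_ge s 3 with h | h
  · obtain ⟨k, rfl⟩ : ∃ k, q = k + 1 := ⟨q - 1, by omega⟩
    interval_cases s
    · rw [add_zero, t_first, show 16 * (k + 1) - 1 = 16 * k + 15 by omega, t_eq k 15 (by omega)] at h0
      rw [add_zero, t_eq _ 1 (by omega), show 16 * (k + 1) - 2 = 16 * k + 14 by omega,
        t_eq k 14 (by omega)] at h1
      rw [add_zero, t_eq _ 2 (by omega), show 16 * (k + 1) - 3 = 16 * k + 13 by omega,
        t_eq k 13 (by omega)] at h2
      revert h0 h1 h2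
      generalize t (k + 1) = a
      generalize t k = b
      revert a b
      decide
    · rw [t_eq _ 1 (by omega), show 16 * (k + 1) + 1 - 1 = 16 * (k + 1) + 0 by omega,
        t_eq _ 0 (by omega)] at h0
      rw [add_assoc, t_eq _ (1 + 1) (by omega), show 16 * (k + 1) + 1 - 2 = 16 * k + 15 by omega,
        t_eq k 15 (by omega)] at h1
      rw [add_assoc, t_eq _ (1 + 2) (by omega), show 16 * (k + 1) + 1 - 3 = 16 * k + 14 by omega,
        t_eq k 14 (by omega)] at h2
      revert h0 h1 h2
      generalize t (k + 1) = a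
      generalize t k = b
      revert a b
      decide
    · rw [t_eq _ 2 (by omega), show 16 * (k + 1) + 2 - 1 = 16 * (k + 1) + 1 by omega,
        t_eq _ 1 (by omega)] at h0
      rw [add_assoc, t_eq _ (2 + 1) (by omega), show 16 * (k + 1) + 2 - 2 = 16 * (k + 1) + 0 by omega,
        t_eq _ 0 (by omega)] at h1
      rw [add_assoc, t_eq _ (2 + 2) (by omega), show 16 * (k + 1) + 2 - 3 = 16 * k + 15 by omega,
        t_eq k 15 (by omega)] at h2
      revert h0 h1 h2
      generalize t (k + 1) = a
      generalize t k = b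
      revert a b
      decide
  · rcases Nat.lt_or_ge s 14 with h' | h'
    · rw [t_eq _ s (by omega), show 16 * q + s - 1 = 16 * q + (s - 1) by omega,
        t_eq _ (s - 1) (by omega)] at h0
      rw [add_assoc, t_eq _ (s + 1) (by omega), show 16 * q + s - 2 = 16 * q + (s - 2) by omega,
        t_eq _ (s - 2) (by omega)] at h1
      rw [add_assoc, t_eq _ (s + 2) (by omega), show 16 * q + s - 3 = 16 * q + (s - 3) by omega,
        t_eq _ (s - 3) (by omega)] at h2
      revert h0 h1 h2
      generalize t q = b
      interval_cases s <;> revert b <;> first | decide | (exact absurd rfl hs13)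
    · have : s = 14 ∨ s = 15 := by omega
      rcases this with rfl | rfl
      · rw [t_eq _ 14 (by omega), show 16 * q + 14 - 1 = 16 * q + 13 by omega,
          t_eq _ 13 (by omega)] at h0
        revert h0
        generalize t q = b
        revert b
        decide
      · rw [t_eq _ 15 (by omega), show 16 * q + 15 - 1 = 16 * q + 14 by omega,
          t_eq _ 14 (by omega)] at h0
        revert h0
        generalize t q = b
        revert b
        decide

lemma sy_radius {c r : ℕ} (h : Sy c r) (hc : c % 16 ≠ 13) : r ≤ 2 := by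
  by_contra hr
  obtain ⟨h1, h2⟩ := h
  have a0 := h2 0 (by omega)
  have a1 := h2 1 (by omega)
  have a2 := h2 2 (by omega)
  rw [add_zero, Nat.sub_zero] at a0
  rw [Nat.sub_sub] at a1 a2
  exact radius_le c hc (by omega) a0 a1 a2

lemma sy_descent {c' r : ℕ} (h : Sy (16 * c' + 13) r) : Sy (c' + 1) ((r + 12) / 16) := by
  obtain ⟨h1, h2⟩ := h
  refine ⟨by omega, fun i hi => ?_⟩
  have h3 := h2 (16 * i + 3) (by omega)
  rw [show 16 * c' + 13 + (16 * i + 3) = 16 * (c' + 1 + i) by ring, t_first,
    show 16 * c' + 13 - 1 - (16 * i + 3) = 16 * (c' + 1 - 1 - i) + 9 by omega, t_nine] at h3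
  exact h3

/-- Nested positions. -/
def zz : ℕ → ℕ
  | 0 => 0
  | n + 1 => if t (zz n) then 16 * zz n + 2 else 16 * zz n + 7

lemma zz_ge (n : ℕ) : n ≤ zz n := by
  induction n with
  | zero => exact Nat.zero_le _
  | succ n ih =>
    show n + 1 ≤ if t (zz n) then 16 * zz n + 2 else 16 * zz n + 7
    split_ifs <;> omega

lemma uncovered_zero (c : ℕ) : ∀ r, Sy c r → 0 < r → c ≤ r → False := by
  induction c using Nat.strong_induction_on with
  | _ c ih =>
    intro r h h0 hr
    by_cases hc : c % 16 = 13
    · obtain ⟨c', rfl⟩ : ∃ c', c = 16 * c' + 13 := ⟨c / 16, by omega⟩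
      exact ih (c' + 1) (by omega) _ (sy_descent h) (by omega) (by omega)
    · have h2 := sy_radius h hc
      obtain ⟨h3, h4⟩ := h
      have hcr : c = r := by omega
      subst hcr
      have e0 := t_zero
      have e1 := t_eq 0 1 (by omega)
      have e3 := t_eq 0 3 (by omega)
      rw [t_zero] at e1 e3
      have hc12 : c = 1 ∨ c = 2 := by omega
      rcases hc12 with rfl | rfl
      · have := h4 0 (by omega)
        simp only [add_zero, Nat.sub_self] at this
        rw [show (1:ℕ) = 16 * 0 + 1 by rfl, e1, e0] at this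
        exact absurd this (by decide)
      · have := h4 1 (by omega)
        simp only [Nat.reduceAdd, Nat.reduceSub] at this
        rw [show (3:ℕ) = 16 * 0 + 3 by rfl, e3, e0] at this
        exact absurd this (by decide)

lemma uncovered (n : ℕ) : ∀ c r, Sy c r → c ≤ zz n + r → zz n < c + r → False := by
  induction n with
  | zero =>
    intro c r h h1 h2
    have e : zz 0 = 0 := rfl
    rw [e] at h1 h2
    have := h.1
    exact uncovered_zero c r h (by omega) (by omega)
  | succ n ih =>
    intro c r h h1 h2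
    have hz : (t (zz n) = true ∧ zz (n + 1) = 16 * zz n + 2) ∨
        (t (zz n) = false ∧ zz (n + 1) = 16 * zz n + 7) := by
      show (t (zz n) = true ∧ (if t (zz n) then 16 * zz n + 2 else 16 * zz n + 7) = _) ∨
        (t (zz n) = false ∧ (if t (zz n) then 16 * zz n + 2 else 16 * zz n + 7) = _)
      cases t (zz n) <;> simp
    by_cases hc : c % 16 = 13
    · obtain ⟨c', rfl⟩ : ∃ c', c = 16 * c' + 13 := ⟨c / 16, by omega⟩
      refine ih (c' + 1) _ (sy_descent h) ?_ ?_
      · rcases hz with ⟨-, hz⟩ | ⟨-, hz⟩ <;> omega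
      · rcases hz with ⟨-, hz⟩ | ⟨-, hz⟩ <;> omega
    · have hr2 := sy_radius h hc
      obtain ⟨h3, h4⟩ := h
      rcases hz with ⟨hb, hz⟩ | ⟨hb, hz⟩
      · -- digit 2
        have q0 := t_eq (zz n) 0 (by omega)
        have q1 := t_eq (zz n) 1 (by omega)
        have q2 := t_eq (zz n) 2 (by omega)
        have q3 := t_eq (zz n) 3 (by omega)
        have q4 := t_eq (zz n) 4 (by omega)
        rw [hb] at q0 q1 q2 q3 q4
        have hcase : c = 16 * zz n + 1 ∨ c = 16 * zz n + 2 ∨ c = 16 * zz n + 3 ∨
          c = 16 * zz n + 4 := by omega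
        rcases hcase with rfl | rfl | rfl | rfl
        · -- c = z - 1, r = 2
          have hz1 : 1 ≤ zz n := by
            by_contra hz0
            have : zz n = 0 := by omega
            rw [this, t_zero] at hb
            exact absurd hb (by decide)
          obtain ⟨k, hk⟩ : ∃ k, zz n = k + 1 := ⟨zz n - 1, by omega⟩
          have q15 := t_eq k 15 (by omega)
          have := h4 1 (by omega)
          rw [show 16 * zz n + 1 + 1 = 16 * zz n + 2 by rfl, q2,
            show 16 * zz n + 1 - 1 - 1 = 16 * k + 15 by omega, q15] at this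
          revert this
          generalize t k = b
          revert b; decide
        · have := h4 0 (by omega)
          rw [show 16 * zz n + 2 + 0 = 16 * zz n + 2 by rfl, q2,
            show 16 * zz n + 2 - 1 - 0 = 16 * zz n + 1 by omega, q1] at this
          exact absurd this (by decide)
        · have := h4 0 (by omega)
          rw [show 16 * zz n + 3 + 0 = 16 * zz n + 3 by rfl, q3,
            show 16 * zz n + 3 - 1 - 0 = 16 * zz n + 2 by omega, q2] at this
          exact absurd this (by decide)
        · have := h4 0 (by omega)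
          rw [show 16 * zz n + 4 + 0 = 16 * zz n + 4 by rfl, q4,
            show 16 * zz n + 4 - 1 - 0 = 16 * zz n + 3 by omega, q3] at this
          exact absurd this (by decide)
      · -- digit 7
        have q5 := t_eq (zz n) 5 (by omega)
        have q6 := t_eq (zz n) 6 (by omega)
        have q7 := t_eq (zz n) 7 (by omega)
        have q8 := t_eq (zz n) 8 (by omega)
        have q10 := t_eq (zz n) 10 (by omega)
        rw [hb] at q5 q6 q7 q8 q10
        have hcase : c = 16 * zz n + 6 ∨ c = 16 * zz n + 7 ∨ c = 16 * zz n + 8 ∨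
          c = 16 * zz n + 9 := by omega
        rcases hcase with rfl | rfl | rfl | rfl
        · have := h4 0 (by omega)
          rw [show 16 * zz n + 6 + 0 = 16 * zz n + 6 by rfl, q6,
            show 16 * zz n + 6 - 1 - 0 = 16 * zz n + 5 by omega, q5] at this
          exact absurd this (by decide)
        · have := h4 0 (by omega)
          rw [show 16 * zz n + 7 + 0 = 16 * zz n + 7 by rfl, q7,
            show 16 * zz n + 7 - 1 - 0 = 16 * zz n + 6 by omega, q6] at this
          exact absurd this (by decide)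
        · have := h4 0 (by omega)
          rw [show 16 * zz n + 8 + 0 = 16 * zz n + 8 by rfl, q8,
            show 16 * zz n + 8 - 1 - 0 = 16 * zz n + 7 by omega, q7] at this
          exact absurd this (by decide)
        · have := h4 1 (by omega)
          rw [show 16 * zz n + 9 + 1 = 16 * zz n + 10 by rfl, q10,
            show 16 * zz n + 9 - 1 - 1 = 16 * zz n + 7 by omega, q7] at this
          exact absurd this (by decide)


/-! ### The word `u` -/

/-- The letters of the blocks `01234` and `43210`. -/
def H (b : Bool) (j : ℕ) : Fin 5 := if b then Fin.ofNat 5 (4 - j) else Fin.ofNat 5 j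

/-- The image of `t` under `0 ↦ 01234`, `1 ↦ 43210`. -/
def u (n : ℕ) : Fin 5 := H (t (n / 5)) (n % 5)

lemma u_eq (m j : ℕ) (hj : j < 5) : u (5 * m + j) = H (t m) j := by
  unfold u
  rw [show (5 * m + j) / 5 = m by omega, show (5 * m + j) % 5 = j by omega]

lemma H_two (b : Bool) (j : ℕ) (hj : j < 5) (h : H b j = 2) : j = 2 := by
  revert h
  interval_cases j <;> revert b <;> decide

lemma H_two' (b : Bool) : H b 2 = 2 := by revert b; decide

lemma H_flip (a b : Bool) (h : H a 4 = H b 0) : a = !b := by
  revert h; revert a b; decide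

lemma H_sym (b : Bool) (j : ℕ) (hj : j < 5) : H b j = H (!b) (4 - j) := by
  interval_cases j <;> revert b <;> decide

/-! ### The morphism -/

/-- The morphism `0 ↦ 0123401234`, `1 ↦ 4321001234`, `2 ↦ 0123443210432104321043210`,
`3 ↦ 012344321043210`, `4 ↦ 43210012340123401234`. -/
def phi (c : Fin 5) : List (Fin 5) :=
  match c with
  | 0 => [0, 1, 2, 3, 4, 0, 1, 2, 3, 4]
  | 1 => [4, 3, 2, 1, 0, 0, 1, 2, 3, 4]
  | 2 => [0, 1, 2, 3, 4, 4, 3, 2, 1, 0, 4, 3, 2, 1, 0, 4, 3, 2, 1, 0, 4, 3, 2, 1, 0]
  | 3 => [0, 1, 2, 3, 4, 4, 3, 2, 1, 0, 4, 3, 2, 1, 0]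
  | 4 => [4, 3, 2, 1, 0, 0, 1, 2, 3, 4, 0, 1, 2, 3, 4, 0, 1, 2, 3, 4]

lemma phi_primitive : IsPrimitive phi := ⟨1, by decide⟩

/-- The image of a block. -/
def M (b : Bool) : List (Fin 5) := (List.range 80).map (fun r => H (T b (r / 5)) (r % 5))

lemma seg_block (m : ℕ) : seg u (80 * m) 80 = M (t m) := by
  unfold seg M
  apply List.map_congr_left
  intro r hr
  rw [List.mem_range] at hr
  rw [show 80 * m + r = 5 * (16 * m + r / 5) + r % 5 by omega, u_eq _ _ (Nat.mod_lt _ (by omega)),
    t_eq _ _ (by omega)]

lemma seg_part (m j : ℕ) (hj : j ≤ 5) : seg u (5 * m) j = (List.range j).map (H (t m)) := by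
  unfold seg
  apply List.map_congr_left
  intro r hr
  rw [List.mem_range] at hr
  rw [u_eq _ _ (by omega)]

lemma ap_block (b : Bool) (j : ℕ) (hj : j ≤ 5) :
    ap phi ((List.range j).map (H b)) =
      (M b).take (ap phi ((List.range j).map (H b))).length := by
  interval_cases j <;> revert b <;> decide +kernel

lemma ap_block_five (b : Bool) : ap phi ((List.range 5).map (H b)) = M b := by
  revert b; decide +kernel

lemma take_seg (w : ℕ → Fin 5) (i n l : ℕ) (h : l ≤ n) : (seg w i n).take l = seg w i l := by
  obtain ⟨d, rfl⟩ := Nat.exists_eq_add_of_le h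
  rw [seg_add, List.take_left' (by simp)]

lemma M_length (b : Bool) : (M b).length = 80 := by simp [M]

lemma phi_maps : MapsTo phi u u := by
  have key : ∀ m, ap phi (seg u 0 (5 * m)) = seg u 0 (80 * m) := by
    intro m
    induction m with
    | zero => simp
    | succ m ih =>
      rw [mul_add, mul_add, mul_one, mul_one, seg_add, seg_add, ap_append, ih, zero_add, zero_add,
        seg_part m 5 (le_refl _), ap_block_five, seg_block]
  refine ⟨fun n => ?_, fun m => ⟨5 * m, ?_⟩⟩
  · obtain ⟨m, j, hj, rfl⟩ : ∃ m j, j < 5 ∧ n = 5 * m + j :=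
      ⟨n / 5, n % 5, Nat.mod_lt _ (by omega), by omega⟩
    have e1 : ap phi (seg u 0 (5 * m + j)) = seg u 0 (80 * m) ++
        ap phi ((List.range j).map (H (t m))) := by
      rw [seg_add, ap_append, key, zero_add, seg_part m j (by omega)]
    have e2 := ap_block (t m) j (by omega)
    set l := (ap phi ((List.range j).map (H (t m)))).length with hl
    have hl80 : l ≤ 80 := by
      have := congrArg List.length e2
      rw [List.length_take, M_length] at this
      omega
    rw [← seg_block, take_seg _ _ _ _ hl80] at e2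
    rw [e1, List.length_append, seg_length, ← hl, seg_add, zero_add, ← e2]
  · rw [key, seg_length]
    omega

/-! ### Palindromes in `u` -/

lemma T_sym (b : Bool) (j : ℕ) (hj : j ≤ 9) : T (!b) j = !T b (9 - j) := by
  interval_cases j <;> revert b <;> decide

lemma T_tail (a b : Bool) (j : ℕ) (h1 : 10 ≤ j) (h2 : j < 16) : T a j = !T b (25 - j) := by
  interval_cases j <;> revert a b <;> decide

lemma sy_up {c r : ℕ} (h : Sy (c + 1) r) (hr : r ≤ c) : Sy (16 * c + 12 + 1) (16 * r + 3) := by
  obtain ⟨-, h2⟩ := h
  refine ⟨by omega, fun i hi => ?_⟩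
  rcases Nat.lt_or_ge i 3 with h3 | h3
  · rw [show 16 * c + 12 + 1 + i = 16 * c + (13 + i) by omega,
      show 16 * c + 12 + 1 - 1 - i = 16 * c + (12 - i) by omega, t_eq _ _ (by omega),
      t_eq _ _ (by omega), T_tail (t c) (t c) (13 + i) (by omega) (by omega),
      show 25 - (13 + i) = 12 - i by omega]
  · obtain ⟨k, j, hj, hk⟩ : ∃ k j, j < 16 ∧ i = 16 * k + 3 + j :=
      ⟨(i - 3) / 16, (i - 3) % 16, Nat.mod_lt _ (by omega), by omega⟩
    subst hk
    have hkr : k < r := by omega
    have h4 := h2 k hkr
    rw [show c + 1 - 1 - k = c - k by omega] at h4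
    rcases Nat.lt_or_ge j 10 with h5 | h5
    · rw [show 16 * c + 12 + 1 + (16 * k + 3 + j) = 16 * (c + 1 + k) + j by ring,
        show 16 * c + 12 + 1 - 1 - (16 * k + 3 + j) = 16 * (c - k) + (9 - j) by omega,
        t_eq _ _ hj, t_eq _ (9 - j) (by omega), h4, T_sym _ _ (by omega)]
    · rw [show 16 * c + 12 + 1 + (16 * k + 3 + j) = 16 * (c + 1 + k) + j by ring,
        show 16 * c + 12 + 1 - 1 - (16 * k + 3 + j) = 16 * (c - k - 1) + (25 - j) by omega,
        t_eq _ _ hj, t_eq _ (25 - j) (by omega)]
      exact T_tail _ _ _ h5 hj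

/-- centres and radii of palindromes -/
def cr : ℕ → ℕ × ℕ
  | 0 => (1, 1)
  | n + 1 => (16 * (cr n).1 + 12, 16 * (cr n).2 + 3)

lemma cr_le (n : ℕ) : (cr n).2 ≤ (cr n).1 := by
  induction n with
  | zero => exact le_refl _
  | succ n ih => show 16 * (cr n).2 + 3 ≤ 16 * (cr n).1 + 12; omega

lemma cr_sy (n : ℕ) : Sy ((cr n).1 + 1) (cr n).2 := by
  induction n with
  | zero =>
    refine ⟨by show 1 ≤ 1 + 1; omega, fun i hi => ?_⟩
    have hi0 : i = 0 := by
      have : i < 1 := hi
      omega
    subst hi0
    show t (16 * 0 + 2) = !t (16 * 0 + 1)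
    rw [t_eq 0 2 (by omega), t_eq 0 1 (by omega), t_zero]
    rfl
  | succ n ih => exact sy_up ih (cr_le n)

lemma cr_grow (n : ℕ) : (cr n).2 < (cr (n + 1)).2 := by
  show (cr n).2 < 16 * (cr n).2 + 3
  omega

lemma u_pal {c r : ℕ} (h : Sy c r) : (seg u (5 * (c - r)) (10 * r)).reverse =
    seg u (5 * (c - r)) (10 * r) := by
  obtain ⟨h1, h2⟩ := h
  have hall : ∀ m m', m + m' + 1 = 2 * c → c - r ≤ m → c - r ≤ m' → t m' = !t m := by
    intro m m' hm a1 a2
    rcases Nat.lt_or_ge m c with h3 | h3
    · have := h2 (m' - c) (by omega)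
      rw [show c + (m' - c) = m' by omega, show c - 1 - (m' - c) = m by omega] at this
      exact this
    · have := h2 (m - c) (by omega)
      rw [show c + (m - c) = m by omega, show c - 1 - (m - c) = m' by omega] at this
      rw [this, Bool.not_not]
  apply List.ext_getElem
  · simp
  · intro j h3 h4
    rw [List.length_reverse, seg_length] at h3
    rw [List.getElem_reverse, seg_getElem, seg_getElem, seg_length]
    have e1 : 5 * (c - r) + j = 5 * (c - r + j / 5) + j % 5 := by omega
    have e2 : 5 * (c - r) + (10 * r - 1 - j) = 5 * (c + r - 1 - j / 5) + (4 - j % 5) := by omega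
    rw [e1, e2, u_eq _ _ (by omega), u_eq _ (j % 5) (Nat.mod_lt _ (by omega)),
      hall (c - r + j / 5) (c + r - 1 - j / 5) (by omega) (by omega) (by omega),
      ← H_sym _ _ (Nat.mod_lt _ (by omega))]

lemma u_palindromic : IsPalindromic u := by
  have hmono : StrictMono (fun n => (cr n).2) := strictMono_nat_of_lt_succ cr_grow
  have hinj : Function.Injective
      (fun n : ℕ => seg u (5 * ((cr n).1 + 1 - (cr n).2)) (10 * (cr n).2)) := by
    intro k k' h
    have h1 := congrArg List.length h
    simp only [seg_length] at h1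
    have h2 : (cr k).2 = (cr k').2 := by omega
    exact hmono.injective h2
  refine (Set.infinite_range_of_injective hinj).mono ?_
  rintro w ⟨n, rfl⟩
  exact ⟨⟨_, _, rfl⟩, u_pal (cr_sy n)⟩


/-! ### Long intervals that meet no long palindrome -/

lemma descent (m : ℕ) : ∀ c r, Sy c r → 4 * 16 ^ m ≤ r → ∃ c' r', Sy c' r' ∧
    5 * c + 16 ^ m = 5 * (16 ^ m * c') + 1 ∧ 5 * r + 1 ≤ 5 * (16 ^ m * r') + 16 ^ m := by
  induction m with
  | zero =>
    intro c r h _
    exact ⟨c, r, h, by simp, by simp⟩
  | succ m ih =>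
    intro c r h hr
    have hp : 16 ^ (m + 1) = 16 * 16 ^ m := by rw [pow_succ, mul_comm]
    have hpos : 0 < 16 ^ m := Nat.pow_pos (by omega)
    rw [hp] at hr
    by_cases hc : c % 16 = 13
    · obtain ⟨c1, rfl⟩ : ∃ c1, c = 16 * c1 + 13 := ⟨c / 16, by omega⟩
      obtain ⟨c', r', h1, h2, h3⟩ := ih (c1 + 1) _ (sy_descent h) (by omega)
      refine ⟨c', r', h1, ?_, ?_⟩
      · rw [hp, mul_assoc]; omega
      · rw [hp, mul_assoc]; omega
    · have := sy_radius h hc
      omega

lemma region_t (m n w : ℕ) (hw : 5 * w ≤ 3 * 16 ^ m) (c r y : ℕ) (h : Sy c r)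
    (hr : 4 * 16 ^ m ≤ r) (h1 : c ≤ y + r) (h2 : y < c + r) (h3 : 16 ^ m * zz n ≤ y)
    (h4 : y < 16 ^ m * zz n + w) : False := by
  obtain ⟨c', r', hs, e1, e2⟩ := descent m c r h hr
  have hpos : 0 < 16 ^ m := Nat.pow_pos (by omega)
  rcases Nat.lt_or_ge (zz n) (c' + r') with h5 | h5
  · rcases Nat.lt_or_ge (zz n + r') c' with h6 | h6
    · have h7 : 16 ^ m * (zz n + r' + 1) ≤ 16 ^ m * c' := Nat.mul_le_mul_left _ h6
      rw [mul_add, mul_add, mul_one] at h7
      omega
    · exact uncovered n c' r' hs h6 h5
  · have h7 : 16 ^ m * (c' + r') ≤ 16 ^ m * zz n := Nat.mul_le_mul_left _ h5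
    rw [mul_add] at h7
    omega

/-- A long palindrome of `u` gives a long symmetric window of `t`. -/
lemma sy_of_pal (S N : ℕ) (hN : 5 ≤ N) (hpal : (seg u S N).reverse = seg u S N) :
    ∃ c, 2 * S + N = 10 * c ∧ Sy c (c - S / 5) := by
  have Hp : ∀ a b, a + b + 1 = 2 * S + N → S ≤ a → S ≤ b → u a = u b := by
    intro a b hab ha hb
    have h3 : (seg u S N)[a - S]? = (seg u S N).reverse[a - S]? := by rw [hpal]
    rw [List.getElem?_reverse (by simp; omega), seg_length] at h3
    rw [List.getElem?_eq_getElem (by simp; omega), List.getElem?_eq_getElem (by simp; omega),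
      seg_getElem, seg_getElem] at h3
    have h4 := Option.some.inj h3
    rw [show S + (a - S) = a by omega, show S + (N - 1 - (a - S)) = b by omega] at h4
    exact h4
  -- the sum of symmetric positions is `4` modulo `5`
  have hK : (2 * S + N) % 5 = 0 := by
    obtain ⟨p, hp1, hp2⟩ : ∃ p, S ≤ 5 * p + 2 ∧ 5 * p + 2 ≤ S + 4 := ⟨(S + 2) / 5, by omega, by omega⟩
    obtain ⟨q, j, hj, hq⟩ : ∃ q j, j < 5 ∧ 2 * S + N = 5 * p + 2 + (5 * q + j) + 1 :=
      ⟨(2 * S + N - 1 - (5 * p + 2)) / 5, (2 * S + N - 1 - (5 * p + 2)) % 5,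
        Nat.mod_lt _ (by omega), by omega⟩
    have h3 := Hp (5 * p + 2) (5 * q + j) (by omega) (by omega) (by omega)
    rw [u_eq _ 2 (by omega), u_eq _ j hj, H_two'] at h3
    have := H_two _ j hj h3.symm
    omega
  -- the reflection of the blocks
  have Hb : ∀ m m', 5 * (m + m') + 5 = 2 * S + N → m < m' → S ≤ 5 * m + 4 → t m = !t m' := by
    intro m m' hm hlt hS
    have h3 := Hp (5 * m + 4) (5 * m' + 0) (by omega) (by omega) (by omega)
    rw [u_eq _ 4 (by omega), u_eq _ 0 (by omega)] at h3
    exact H_flip _ _ h3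
  obtain ⟨K, hK'⟩ : ∃ K, 2 * S + N = 5 * K + 5 := ⟨(2 * S + N) / 5 - 1, by omega⟩
  have hodd : K % 2 = 1 := by
    by_contra hcon
    obtain ⟨m, rfl⟩ : ∃ m, K = 2 * m := ⟨K / 2, by omega⟩
    have h3 := Hp (5 * m + 4) (5 * m + 0) (by omega) (by omega) (by omega)
    rw [u_eq _ 4 (by omega), u_eq _ 0 (by omega)] at h3
    have h4 := H_flip _ _ h3
    revert h4
    generalize t m = b
    revert b; decide
  obtain ⟨c, rfl⟩ : ∃ c, K = 2 * c + 1 := ⟨K / 2, by omega⟩
  refine ⟨c + 1, by omega, ⟨by omega, fun i hi => ?_⟩⟩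
  have h3 := Hb (c - i) (c + 1 + i) (by omega) (by omega) (by omega)
  rw [show c + 1 - 1 - i = c - i by omega, h3, Bool.not_not]

lemma region_u (m n w : ℕ) (hw : 5 * w ≤ 3 * 16 ^ m) (S N x : ℕ) (hN : 40 * 16 ^ m + 5 ≤ N)
    (h1 : S ≤ x) (h2 : x < S + N) (h3 : 5 * (16 ^ m * zz n) ≤ x)
    (h4 : x < 5 * (16 ^ m * zz n) + 5 * w)
    (hpal : (seg u S N).reverse = seg u S N) : False := by
  obtain ⟨c, hc, hs⟩ := sy_of_pal S N (by omega) hpal
  exact region_t m n w hw c (c - S / 5) (x / 5) hs (by omega) (by omega) (by omega) (by omega)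
    (by omega)

/-- Every window of length nine contains all letters. -/
lemma u_window (i : ℕ) (a : Fin 5) : ∃ j < 9, u (i + j) = a := by
  have hH : ∀ (b : Bool) (a : Fin 5), ∃ j < 5, H b j = a := by decide
  obtain ⟨j, hj, h⟩ := hH (t ((i + 4) / 5)) a
  refine ⟨5 * ((i + 4) / 5) + j - i, by omega, ?_⟩
  rw [show i + (5 * ((i + 4) / 5) + j - i) = 5 * ((i + 4) / 5) + j by omega, u_eq _ _ hj, h]

/-! ### Covering by palindromes; erasing morphisms are allowed -/

section general

variable {α β : Type}

lemma good_step' [Finite α] {f : α → List β} (hf : RT f ∨ LT f) {v : ℕ → α} {y : ℕ → β}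
    (h : MapsTo f v y) {Q : ℕ → ℕ} (hQ : ∀ m, ∃ j0, ∀ j, j0 ≤ j → m ≤ Q j) (hv : Good v Q) :
    Good y (fun j => pos f v (Q j)) := by
  obtain ⟨D, hD⟩ := hv
  obtain ⟨C, hC⟩ : ∃ C, ∀ a, (f a).length ≤ C := by
    obtain ⟨C, hC⟩ := (Set.finite_range (fun a => (f a).length)).bddAbove
    exact ⟨C, fun a => hC ⟨a, rfl⟩⟩
  have hlen : ∀ i n, pos f v (i + n) ≤ pos f v i + C * n := by
    intro i n
    rw [pos_add]
    have := ap_length_le hC (seg v i n)
    rw [seg_length] at this
    omega
  rcases hf with ⟨t, ht, hR⟩ | ⟨t, ht, hL⟩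
  · refine ⟨D + C * D + t.length, fun j hj => ?_⟩
    obtain ⟨S, n, h1, h2, h3, h4, h5⟩ := hD j (by omega)
    refine ⟨pos f v S, pos f v (S + n) - pos f v S + t.length, pos_mono f v h1, ?_, ?_, ?_, ?_⟩
    · have a1 := pos_mono f v h2
      have a2 := pos_mono f v (Nat.le_add_right S n)
      simp only at *
      omega
    · have a1 := hlen S (Q j - S)
      rw [Nat.add_sub_cancel' h1] at a1
      have a2 : C * (Q j - S) ≤ C * D := Nat.mul_le_mul_left C (by omega)
      simp only
      omega
    · have a1 := hlen (Q j) D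
      have a2 := pos_mono f v h4
      have a3 := pos_mono f v (Nat.le_add_right S n)
      simp only
      omega
    · -- the palindrome `f(w) t`
      have e1 : pos f v (S + n) - pos f v S = (ap f (seg v S n)).length := by
        rw [pos_add]; omega
      rw [e1, seg_add, ← seg_image h, ← pos_add]
      -- the next letters are `t`
      obtain ⟨n0, hn0⟩ := pos_tendsto h (pos f v (S + n) + t.length)
      obtain ⟨m, hm⟩ : ∃ m, t.length ≤ (ap f (seg v (S + n) m)).length := by
        refine ⟨n0, ?_⟩
        have := hn0 (S + n + n0) (by omega)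
        rw [pos_add f v (S + n) n0] at this
        omega
      have e2 := RT_rev ht hR (seg v (S + n) m).reverse
      rw [List.reverse_reverse, List.reverse_append, ht] at e2
      have e3 : seg y (pos f v (S + n)) t.length = t := by
        have e4 := seg_image h (S + n) m
        obtain ⟨l, hl⟩ := Nat.exists_eq_add_of_le hm
        rw [hl, seg_add] at e4
        rw [e4, List.append_assoc] at e2
        exact (List.append_inj e2.symm (by simp)).1
      rw [e3]
      have e5 := RT_rev ht hR (seg v S n)
      rw [e5, h5]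
  · obtain ⟨n0, hn0⟩ := pos_tendsto h t.length
    obtain ⟨j0, hj0⟩ := hQ (n0 + D)
    refine ⟨j0 + D + C * D + t.length, fun j hj => ?_⟩
    obtain ⟨S, n, h1, h2, h3, h4, h5⟩ := hD j (by omega)
    have hS : t.length ≤ pos f v S := hn0 S (by have := hj0 j (by omega); omega)
    refine ⟨pos f v S - t.length, t.length + (pos f v (S + n) - pos f v S), ?_, ?_, ?_, ?_, ?_⟩
    · have a1 := pos_mono f v h1
      simp only
      omega
    · have a1 := pos_mono f v h2
      have a2 := pos_mono f v (Nat.le_add_right S n)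
      simp only at *
      omega
    · have a1 := hlen S (Q j - S)
      rw [Nat.add_sub_cancel' h1] at a1
      have a2 : C * (Q j - S) ≤ C * D := Nat.mul_le_mul_left C (by omega)
      simp only
      omega
    · have a1 := hlen (Q j) D
      have a2 := pos_mono f v h4
      have a3 := pos_mono f v (Nat.le_add_right S n)
      simp only
      omega
    · have e1 : pos f v (S + n) - pos f v S = (ap f (seg v S n)).length := by
        rw [pos_add]; omega
      rw [e1, seg_add, Nat.sub_add_cancel hS, ← seg_image h]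
      have e2 := LT_rev ht hL (seg v 0 S).reverse
      rw [List.reverse_reverse, List.reverse_append, ht] at e2
      have e3 : seg y (pos f v S - t.length) t.length = t := by
        have e4 := seg_image h 0 S
        have e5 : (ap f (seg v 0 S)).length = (pos f v S - t.length) + t.length := by
          rw [Nat.sub_add_cancel hS]; rfl
        rw [e5, seg_add, pos_zero, zero_add] at e4
        rw [e4, ← List.append_assoc] at e2
        exact (List.append_inj' e2.symm (by simp)).2
      rw [e3]
      have e6 := LT_rev ht hL (seg v S n)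
      rw [e6, h5]

lemma it_good' [Finite α] {f : α → List α} (hf : RT f ∨ LT f) {v : ℕ → α} (h : MapsTo f v v)
    (k : ℕ) : Good v (pos (it f k) v) := by
  induction k with
  | zero =>
    have e : pos (it f 0) v = id := by
      funext n
      unfold pos
      rw [ap_it_zero, seg_length]; rfl
    rw [e]
    exact good_id v
  | succ k ih =>
    have e : pos (it f (k + 1)) v = fun j => pos f v (pos (it f k) v j) := by
      funext n
      rw [mapsTo_comp (it_maps h k) f]; rfl
    rw [e]
    exact good_step' hf h (fun m => pos_tendsto (it_maps h k) m) ih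

/-- If the lengths of the iterates are unbounded, then they tend to infinity. -/
lemma it_tendsto [Finite α] {f : α → List α} (a : α) (h : ∀ C, ∃ n, C < (it f n a).length) (N : ℕ) :
    ∃ n0, ∀ n, n0 ≤ n → N ≤ (it f n a).length := by
  by_contra hcon
  push Not at hcon
  have hinf : {n | (it f n a).length < N}.Infinite := by
    rw [Set.infinite_iff_exists_gt]
    intro k
    obtain ⟨n, h1, h2⟩ := hcon (k + 1)
    exact ⟨n, h2, by omega⟩
  obtain ⟨n1, -, n2, -, hlt, heq⟩ := hinf.exists_lt_map_eq_of_mapsTo
    (f := fun n => it f n a) (t := {l : List α | l.length < N}) (fun n hn => hn)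
    (List.finite_length_lt α N)
  have hper : ∀ k, it f (k + n2) a = it f (k + n1) a := by
    intro k
    rw [it_add, it_add, heq]
  have hall : ∀ n, ∃ m ≤ n2, it f n a = it f m a := by
    intro n
    induction n using Nat.strong_induction_on with
    | _ n ih =>
      rcases Nat.lt_or_ge n2 n with h1 | h1
      · obtain ⟨m, hm, he⟩ := ih (n - n2 + n1) (by omega)
        refine ⟨m, hm, ?_⟩
        rw [← he, ← hper, Nat.sub_add_cancel (by omega)]
      · exact ⟨n, h1, rfl⟩
  obtain ⟨n, hn⟩ := h ((Finset.range (n2 + 1)).sup (fun m => (it f m a).length))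
  obtain ⟨m, hm, he⟩ := hall n
  rw [he] at hn
  have := Finset.le_sup (s := Finset.range (n2 + 1)) (f := fun m => (it f m a).length)
    (Finset.mem_range.2 (show m < n2 + 1 by omega))
  omega

end general


/-! ### The theorem -/

theorem core {ψ : Fin 5 → List (Fin 5)} (hψ : RT ψ ∨ LT ψ) {v : ℕ → Fin 5} (hv : MapsTo ψ v v)
    (hlang : language v = language u) (a0 : Fin 5)
    (ha0 : ∀ C, ∃ n, C < (it ψ n a0).length) : False := by
  classical
  -- bounded letters
  obtain ⟨C0, hC0⟩ : ∃ C0, ∀ b, (¬ ∀ C, ∃ n, C < (it ψ n b).length) →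
      ∀ n, (it ψ n b).length ≤ C0 := by
    have h1 : ∀ b, ∃ C, (¬ ∀ C, ∃ n, C < (it ψ n b).length) → ∀ n, (it ψ n b).length ≤ C := by
      intro b
      by_cases hb : ∀ C, ∃ n, C < (it ψ n b).length
      · exact ⟨0, fun h => absurd hb h⟩
      · push Not at hb
        obtain ⟨C, hC⟩ := hb
        exact ⟨C, fun _ => hC⟩
    choose C hC using h1
    refine ⟨Finset.univ.sup C, fun b hb n => (hC b hb n).trans ?_⟩
    exact Finset.le_sup (Finset.mem_univ b)
  -- the scale
  obtain ⟨m, hm⟩ : ∃ m, 9 * C0 + 10 < 16 ^ m := by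
    obtain ⟨m, hm⟩ := pow_unbounded_of_one_lt (9 * C0 + 10) (by omega : 1 < 16)
    exact ⟨m, hm⟩
  set w := 16 ^ m / 2 with hw
  set N1 := 40 * 16 ^ m + 5 with hN1
  -- the iterate
  obtain ⟨k, hk⟩ : ∃ k, ∀ b, (∀ C, ∃ n, C < (it ψ n b).length) → N1 ≤ (it ψ k b).length := by
    have h1 : ∀ b, ∃ n0, (∀ C, ∃ n, C < (it ψ n b).length) → ∀ n, n0 ≤ n →
        N1 ≤ (it ψ n b).length := by
      intro b
      by_cases hb : ∀ C, ∃ n, C < (it ψ n b).length
      · obtain ⟨n0, hn0⟩ := it_tendsto b hb N1
        exact ⟨n0, fun _ => hn0⟩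
      · exact ⟨0, fun h => absurd h hb⟩
    choose n0 hn0 using h1
    refine ⟨Finset.univ.sup n0, fun b hb => hn0 b hb _ ?_⟩
    exact Finset.le_sup (Finset.mem_univ b)
  have hmaps := it_maps hv k
  obtain ⟨D, hD⟩ := it_good' hψ hv k
  generalize hQ : pos (it ψ k) v = Q at hD
  have hQ0 : Q 0 = 0 := by rw [← hQ, pos_zero]
  have hQs : ∀ j, Q (j + 1) = Q j + (it ψ k (v j)).length := by
    intro j; rw [← hQ, pos_succ]
  have hQm : Monotone Q := by rw [← hQ]; exact pos_mono _ _
  have hQt : ∀ M, ∃ j0, ∀ j, j0 ≤ j → M ≤ Q j := by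
    intro M; rw [← hQ]; exact pos_tendsto hmaps M
  obtain ⟨C1, hC1⟩ : ∃ C1, ∀ b, (it ψ k b).length ≤ C1 := by
    obtain ⟨C, hC⟩ := (Set.finite_range (fun b => (it ψ k b).length)).bddAbove
    exact ⟨C, fun a => hC ⟨a, rfl⟩⟩
  -- every window of nine letters of `v` contains a growing letter
  have hwin : ∀ i, ∃ j < 9, v (i + j) = a0 := by
    intro i
    have h1 : seg v i 9 ∈ language u := by
      rw [← hlang]; exact ⟨i, 9, rfl⟩
    obtain ⟨i', n', h2⟩ := h1
    have hn' : n' = 9 := by
      have := congrArg List.length h2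
      rw [seg_length, seg_length] at this
      exact this.symm
    subst hn'
    obtain ⟨j, hj, h3⟩ := u_window i' a0
    refine ⟨j, hj, ?_⟩
    have h4 : (seg v i 9)[j]? = (seg u i' 9)[j]? := by rw [h2]
    rw [List.getElem?_eq_getElem (by simpa using hj), List.getElem?_eq_getElem (by simpa using hj),
      seg_getElem, seg_getElem] at h4
    rw [Option.some.inj h4, h3]
  -- a large nested position
  set n := Q (D + 1) + D + 1 + C1 with hn
  have hz := zz_ge n
  have hpow : 0 < 16 ^ m := Nat.pow_pos (by omega)
  set W := 5 * (16 ^ m * zz n) with hW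
  have hWn : n ≤ W := by
    have : zz n ≤ 16 ^ m * zz n := Nat.le_mul_of_pos_left _ hpow
    omega
  have hF : seg u 0 (W + 5 * w + D + 1) ∈ language v := by
    rw [hlang]; exact ⟨0, _, rfl⟩
  obtain ⟨i, l, him⟩ := hF
  have hl : l = W + 5 * w + D + 1 := by
    have := congrArg List.length him
    rw [seg_length, seg_length] at this
    exact this.symm
  subst hl
  have huv : ∀ j < W + 5 * w + D + 1, u j = v (i + j) := by
    intro j hj
    have h1 : (seg u 0 (W + 5 * w + D + 1))[j]? = (seg v i (W + 5 * w + D + 1))[j]? := by rw [him]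
    rw [List.getElem?_eq_getElem (by simpa using hj), List.getElem?_eq_getElem (by simpa using hj),
      seg_getElem, seg_getElem, zero_add] at h1
    exact Option.some.inj h1
  -- the block that contains the position `i + W`
  obtain ⟨j1, hj1, hj2⟩ : ∃ j, Q j ≤ i + W ∧ i + W < Q (j + 1) := by
    have hex : ∃ j, i + W < Q j := by
      obtain ⟨j0, h0⟩ := hQt (i + W + 1)
      exact ⟨j0, by have := h0 j0 (le_refl _); omega⟩
    refine ⟨Nat.find hex - 1, ?_, ?_⟩
    · have hpos : Nat.find hex ≠ 0 := by
        intro h0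
        have := Nat.find_spec hex
        rw [h0, hQ0] at this
        omega
      have := Nat.find_min hex (m := Nat.find hex - 1) (by omega)
      omega
    · have hpos : Nat.find hex ≠ 0 := by
        intro h0
        have := Nat.find_spec hex
        rw [h0, hQ0] at this
        omega
      have := Nat.find_spec hex
      rw [Nat.sub_add_cancel (by omega)]
      exact this
  -- the first block of a growing letter from there on
  have hex2 : ∃ d, ∀ C, ∃ n, C < (it ψ n (v (j1 + d))).length := by
    obtain ⟨j, -, h3⟩ := hwin j1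
    exact ⟨j, by rw [h3]; exact ha0⟩
  have hd9 : Nat.find hex2 < 9 := by
    obtain ⟨j, hj, h3⟩ := hwin j1
    exact lt_of_le_of_lt (Nat.find_min' hex2 (by rw [h3]; exact ha0)) hj
  have hgrow := Nat.find_spec hex2
  have hmin : ∀ d < Nat.find hex2, ∀ n, (it ψ n (v (j1 + d))).length ≤ C0 := by
    intro d hd
    exact hC0 _ (Nat.find_min hex2 hd)
  generalize Nat.find hex2 = d at hd9 hgrow hmin
  have hQd : ∀ e ≤ d, Q (j1 + e) ≤ Q j1 + C0 * e := by
    intro e he
    induction e with
    | zero => simp
    | succ e ih =>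
      have h1 := ih (by omega)
      have h2 := hmin e (by omega) k
      rw [← add_assoc, hQs, mul_add, mul_one]
      omega
  have hQd' := hQd d (le_refl _)
  have hC9 : C0 * d ≤ C0 * 9 := Nat.mul_le_mul_left _ (by omega)
  -- the position
  obtain ⟨x, hx1, hx2, hx3, hx4⟩ : ∃ x, W ≤ x ∧ x < W + 5 * w ∧ Q (j1 + d) ≤ i + x ∧
      i + x < Q (j1 + d + 1) := by
    have h1 := hk _ hgrow
    have h2 := hQs (j1 + d)
    rcases Nat.eq_zero_or_pos d with h0 | h0
    · subst h0
      exact ⟨W, le_refl _, by omega, hj1, hj2⟩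
    · have h3 : Q (j1 + 1) ≤ Q (j1 + d) := hQm (by omega)
      exact ⟨Q (j1 + d) - i, by omega, by omega, by omega, by omega⟩
  have hjD : D ≤ j1 + d := by
    by_contra hcon
    have := hQm (show j1 + d + 1 ≤ D + 1 by omega)
    omega
  obtain ⟨S, n', s1, s2, s3, s4, s5⟩ := hD (j1 + d) hjD
  have hstep := hQs (j1 + d)
  have hkj := hk _ hgrow
  have hCj := hC1 (v (j1 + d))
  have hSi : i ≤ S := by omega
  have hseg : seg v S n' = seg u (S - i) n' := by
    apply List.ext_getElem
    · simp
    · intro l h1 h2
      rw [seg_length] at h1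
      rw [seg_getElem, seg_getElem, huv (S - i + l) (by omega)]
      congr 1
      omega
  rw [hseg] at s5
  exact region_u m n w (by omega) (S - i) n' x (by omega) (by omega) (by omega) (by omega)
    (by omega) s5

/-- **Q1 fails.** There are a primitive morphism `φ` over five letters and a palindromic fixed
point `u` of `φ` such that every morphism `ψ`, in class P or conjugate to a morphism in class P, that
has a fixed point `v` with the language of `u` is trivial in the following sense: it is not primitive,
and the words `ψ ^ n (a)` have bounded length for every letter `a` (as for the identity, which is in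
class P and fixes every word). -/
theorem result : ∃ (φ : Fin 5 → List (Fin 5)) (u : ℕ → Fin 5),
    IsPrimitive φ ∧ MapsTo φ u u ∧ IsPalindromic u ∧
    ∀ (ψ : Fin 5 → List (Fin 5)) (v : ℕ → Fin 5), ClassP' ψ → MapsTo ψ v v →
      language v = language u →
        ¬ IsPrimitive ψ ∧ ∀ a, ∃ C, ∀ n, ((ap ψ)^[n] [a]).length ≤ C := by
  refine ⟨phi, u, phi_primitive, phi_maps, u_palindromic, ?_⟩
  intro ψ v hP hv hlang
  have hbdd : ∀ a, ∃ C, ∀ n, ((ap ψ)^[n] [a]).length ≤ C := by
    intro a
    by_contra hcon
    push Not at hcon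
    refine core (RT_or_LT hP) hv hlang a ?_
    intro C
    obtain ⟨n, hn⟩ := hcon C
    exact ⟨n, by rw [it_eq]; exact hn⟩
  refine ⟨?_, hbdd⟩
  rintro ⟨k0, hk0⟩
  have h2 : ∀ b, 2 ≤ (it ψ k0 b).length := by
    intro b
    rw [it_eq]
    have m1 := hk0 b 0
    have m2 := hk0 b 1
    rcases hl : (ap ψ)^[k0] [b] with _ | ⟨e1, _ | ⟨e2, l⟩⟩
    · rw [hl] at m1; simp at m1
    · rw [hl] at m1 m2
      simp only [List.mem_singleton] at m1 m2
      exact absurd (m2.trans m1.symm) (by decide)
    · simp
  obtain ⟨C, hC⟩ := hbdd 0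
  have h3 := grow_of_two k0 h2 (C + 1) 0
  rw [it_eq] at h3
  have h4 := hC (k0 * (C + 1))
  have h5 : C + 1 < 2 ^ (C + 1) := Nat.lt_two_pow_self
  omega

end Pool.Agent.Results.MP_6957f6_co.ClassPFails
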